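import Pool.Agent.helper84.ZD.SpecA
set_option autoImplicit false
open Complex MeasureTheory
namespace Pool.Agent.ZD
open Pool.Agent.helper84.DM Pool.Agent.helper78.ED Pool.Agent.DH

theorem PRS_rho_cont (W : Finset ℝ) : Continuous (rho W) := by
  unfold rho
  refine continuous_finsetSum _ (fun t _ => ?_)
  fun_prop

theorem PRS_kap_cont : Continuous kap := by
  unfold kap
  refine continuous_const.div (by fun_prop) (fun x => ?_)
  positivity

theorem PRS_kap_nonneg (x : ℝ) : 0 ≤ kap x := by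
  unfold kap; positivity

theorem PRS_kap_le (x c : ℝ) (hc : 0 < c) (h : c ≤ |x|) : kap x ≤ 1 / c ^ 2 := by
  unfold kap
  have h2 : c ^ 2 ≤ x ^ 2 := by
    rw [← sq_abs x]
    exact pow_le_pow_left₀ hc.le h 2
  exact one_div_le_one_div_of_le (by positivity) (by linarith)

/-- bound of an integral by a constant -/
theorem PRS_int_le (W : Finset ℝ) (f : ℝ → ℝ) (c : ℝ) (hf : Continuous f)
    (h : ∀ a, |a| ≤ 5 → f a ≤ c) :
    ∫ a in (-5 : ℝ)..5, ‖rho W a‖ ^ 2 * f a ≤ c * ∫ a in (-5 : ℝ)..5, ‖rho W a‖ ^ 2 := by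
  have hr := PRS_rho_cont W
  rw [← intervalIntegral.integral_const_mul]
  refine intervalIntegral.integral_mono_on (by norm_num) ?_ ?_ ?_
  · exact (Continuous.mul (by fun_prop) hf).intervalIntegrable _ _
  · exact (Continuous.intervalIntegrable (by fun_prop) _ _)
  · intro a ha
    have : |a| ≤ 5 := abs_le.mpr ⟨ha.1, ha.2⟩
    have h1 := h a this
    nlinarith [sq_nonneg ‖rho W a‖]

theorem PRS_sum_inv (M : ℕ) :
    ∑ m ∈ Finset.Icc 1 M, ∑ m' ∈ Finset.Icc 1 M, (1 : ℝ) / ((m : ℝ) + m') ^ 2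
      ≤ 1 + Real.log M := by
  have h1 : ∀ m : ℕ, 1 ≤ m → ∀ K : ℕ,
      ∑ m' ∈ Finset.Icc 1 K, (1 : ℝ) / ((m : ℝ) + m') ^ 2 ≤ 1 / (m : ℝ) - 1 / ((m : ℝ) + K) := by
    intro m hm K
    have hm' : (1 : ℝ) ≤ m := by exact_mod_cast hm
    induction K with
    | zero => simp
    | succ K ih =>
      rw [Finset.sum_Icc_succ_top (by omega)]
      have hK : (0 : ℝ) ≤ K := Nat.cast_nonneg K
      have h2 : (1 : ℝ) / ((m : ℝ) + ((K + 1 : ℕ) : ℝ)) ^ 2
          ≤ 1 / ((m : ℝ) + K) - 1 / ((m : ℝ) + ((K + 1 : ℕ) : ℝ)) := by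
        push_cast
        have ha : (0 : ℝ) < (m : ℝ) + K := by linarith
        have hb : (0 : ℝ) < (m : ℝ) + (K + 1) := by linarith
        rw [div_sub_div _ _ ha.ne' hb.ne', div_le_div_iff₀ (by positivity) (by positivity)]
        nlinarith
      linarith
  have h3 : ∑ m ∈ Finset.Icc 1 M, ∑ m' ∈ Finset.Icc 1 M, (1 : ℝ) / ((m : ℝ) + m') ^ 2
      ≤ ∑ m ∈ Finset.Icc 1 M, (1 : ℝ) / (m : ℝ) := by
    refine Finset.sum_le_sum (fun m hm => ?_)
    have hm1 := (Finset.mem_Icc.mp hm).1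
    refine (h1 m hm1 M).trans ?_
    have : (0 : ℝ) ≤ 1 / ((m : ℝ) + M) := by positivity
    linarith
  refine h3.trans ?_
  have h4 := harmonic_le_one_add_log M
  have h5 : ((harmonic M : ℚ) : ℝ) = ∑ m ∈ Finset.Icc 1 M, (1 : ℝ) / (m : ℝ) := by
    rw [harmonic_eq_sum_Icc]
    push_cast
    refine Finset.sum_congr rfl (fun m _ => ?_)
    rw [one_div]
  rw [← h5]
  exact h4

theorem PRS_blocks (M : ℕ) (g : ℕ → ℕ → ℝ) :
    ∑ m ∈ Finset.Icc 1 M, ∑ m' ∈ Finset.Icc 1 M, g m m' =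
    ∑ i ∈ Finset.range (Nat.log 2 M + 1), ∑ j ∈ Finset.range (Nat.log 2 M + 1),
      ∑ m ∈ (Finset.Icc 1 M).filter (fun m => 2 ^ i ≤ m ∧ m < 2 ^ (i + 1)),
        ∑ m' ∈ (Finset.Icc 1 M).filter (fun m => 2 ^ j ≤ m ∧ m < 2 ^ (j + 1)), g m m' := by
  have key : ∀ f : ℕ → ℝ, ∑ m ∈ Finset.Icc 1 M, f m =
      ∑ i ∈ Finset.range (Nat.log 2 M + 1),
        ∑ m ∈ (Finset.Icc 1 M).filter (fun m => 2 ^ i ≤ m ∧ m < 2 ^ (i + 1)), f m := by
    intro f
    rw [← Finset.sum_fiberwise_of_maps_to (s := Finset.Icc 1 M)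
      (t := Finset.range (Nat.log 2 M + 1)) (g := fun m => Nat.log 2 m)]
    · refine Finset.sum_congr rfl (fun i _ => ?_)
      refine Finset.sum_congr ?_ (fun _ _ => rfl)
      refine Finset.filter_congr (fun m hm => ?_)
      have hm1 := (Finset.mem_Icc.mp hm).1
      constructor
      · intro h
        subst h
        exact ⟨Nat.pow_log_le_self 2 (by omega), Nat.lt_pow_succ_log_self (by norm_num) m⟩
      · rintro ⟨h1, h2⟩
        exact Nat.log_eq_of_pow_le_of_lt_pow h1 h2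
    · intro m hm
      have h := Finset.mem_Icc.mp hm
      exact Finset.mem_range.mpr (Nat.lt_succ_of_le (Nat.log_mono_right h.2))
  rw [key]
  refine Finset.sum_congr rfl (fun i _ => ?_)
  rw [Finset.sum_congr rfl (fun m _ => key (g m)), Finset.sum_comm]

theorem PRS (h1 : BLK_stmt) (h2 : GEO_stmt) : PRS_stmt := by
  obtain ⟨C₁, hC₁, hB⟩ := h1
  refine ⟨38 * C₁ + 17 * Real.exp 10, by positivity, ?_⟩
  intro W X D M L hX hL hM hML hD hd
  have hX0 : 0 < X := by linarith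
  set I0 : ℝ := ∫ a in (-5 : ℝ)..5, ‖rho W a‖ ^ 2 with hI0
  have hI0n : 0 ≤ I0 := intervalIntegral.integral_nonneg (by norm_num) (fun a _ => by positivity)
  have hQ : 0 ≤ QW W L := by
    unfold QW
    exact Finset.sum_nonneg (fun _ _ => Finset.sum_nonneg (fun _ _ => by positivity))
  have hr := PRS_rho_cont W
  have hk := PRS_kap_cont
  let F : ℕ → ℕ → ℝ := fun m m' =>
    ∫ a in (-5 : ℝ)..5, ‖rho W a‖ ^ 2 * kap (X * ((m : ℝ) * Real.exp a - m'))
  let G : ℕ → ℕ → ℝ := fun m m' =>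
    ∫ a in (-5 : ℝ)..5, ‖rho W a‖ ^ 2 * kap (X * ((m : ℝ) * Real.exp a + m'))
  have hFc : ∀ m m' : ℕ, Continuous (fun a : ℝ => kap (X * ((m : ℝ) * Real.exp a - m'))) := by
    intro m m'; exact hk.comp (by fun_prop)
  have hGc : ∀ m m' : ℕ, Continuous (fun a : ℝ => kap (X * ((m : ℝ) * Real.exp a + m'))) := by
    intro m m'; exact hk.comp (by fun_prop)
  have hFG : ∀ m m' : ℕ, ∫ a in (-5 : ℝ)..5, ‖rho W a‖ ^ 2 *
        (kap (X * ((m : ℝ) * Real.exp a - m')) + kap (X * ((m : ℝ) * Real.exp a + m')))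
      = F m m' + G m m' := by
    intro m m'
    have i1 := hFc m m'
    have i2 := hGc m m'
    simp only [F, G]
    rw [← intervalIntegral.integral_add]
    · refine intervalIntegral.integral_congr (fun a _ => ?_)
      ring
    · exact (Continuous.mul (by fun_prop) i1).intervalIntegrable _ _
    · exact (Continuous.mul (by fun_prop) i2).intervalIntegrable _ _
  have hF0 : ∀ m m' : ℕ, 0 ≤ F m m' := fun m m' =>
    intervalIntegral.integral_nonneg (by norm_num)
      (fun a _ => mul_nonneg (by positivity) (PRS_kap_nonneg _))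
  -- the bound for the terms with plus
  have hexp : Real.exp 10 = Real.exp 5 ^ 2 := by
    rw [← Real.exp_nat_mul]; norm_num
  have hGb : ∀ m m' : ℕ, 1 ≤ m → 1 ≤ m' →
      G m m' ≤ Real.exp 10 / X ^ 2 * (1 / ((m : ℝ) + m') ^ 2) * I0 := by
    intro m m' hm hm'
    have hmR : (1 : ℝ) ≤ m := by exact_mod_cast hm
    have hmR' : (1 : ℝ) ≤ m' := by exact_mod_cast hm'
    refine PRS_int_le W _ _ (hGc m m') (fun a ha => ?_)
    have h := (h2 m m' a 0 hm hm' ha le_rfl).2.2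
    have hc : 0 < X * (Real.exp (-5) * ((m : ℝ) + m')) := by positivity
    have h3 := PRS_kap_le (X * ((m : ℝ) * Real.exp a + m')) _ hc
      (by rw [abs_mul, abs_of_pos hX0]; exact mul_le_mul_of_nonneg_left h hX0.le)
    refine h3.trans (le_of_eq ?_)
    rw [hexp, Real.exp_neg]
    have : Real.exp 5 ≠ 0 := (Real.exp_pos 5).ne'
    field_simp
  have hFb : ∀ m m' : ℕ, 1 ≤ m → 1 ≤ m' → (512 * m ≤ m' ∨ 512 * m' ≤ m) →
      F m m' ≤ 16 * (Real.exp 10 / X ^ 2 * (1 / ((m : ℝ) + m') ^ 2)) * I0 := by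
    intro m m' hm hm' hfar
    have hmR : (1 : ℝ) ≤ m := by exact_mod_cast hm
    have hmR' : (1 : ℝ) ≤ m' := by exact_mod_cast hm'
    refine PRS_int_le W _ _ (hFc m m') (fun a ha => ?_)
    have h := (h2 m m' a 0 hm hm' ha le_rfl).2.1 hfar
    have hc : 0 < X * (Real.exp (-5) / 4 * ((m : ℝ) + m')) := by positivity
    have h3 := PRS_kap_le (X * ((m : ℝ) * Real.exp a - m')) _ hc
      (by rw [abs_mul, abs_of_pos hX0]; exact mul_le_mul_of_nonneg_left h hX0.le)
    refine h3.trans (le_of_eq ?_)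
    rw [hexp, Real.exp_neg]
    have : Real.exp 5 ≠ 0 := (Real.exp_pos 5).ne'
    field_simp
    norm_num
  -- near and far
  let nr : ℕ → ℕ → Prop := fun i j => i ≤ j + 9 ∧ j ≤ i + 9
  have hdec : ∀ i j, Decidable (nr i j) := fun i j => by unfold nr; infer_instance
  have hfar : ∀ m m' : ℕ, 1 ≤ m → 1 ≤ m' → ¬ nr (Nat.log 2 m) (Nat.log 2 m') →
      (512 * m ≤ m' ∨ 512 * m' ≤ m) := by
    intro m m' hm hm' hn
    have a1 := Nat.pow_log_le_self 2 (x := m) (by omega)
    have a2 := Nat.lt_pow_succ_log_self (b := 2) (by norm_num) m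
    have a3 := Nat.pow_log_le_self 2 (x := m') (by omega)
    have a4 := Nat.lt_pow_succ_log_self (b := 2) (by norm_num) m'
    simp only [nr, not_and_or, not_le] at hn
    rcases hn with hn | hn
    · right
      have : 2 ^ (Nat.log 2 m' + 1 + 9) ≤ 2 ^ (Nat.log 2 m) :=
        Nat.pow_le_pow_right (by norm_num) (by omega)
      rw [pow_add] at this
      have e : (2 : ℕ) ^ 9 = 512 := by norm_num
      rw [e] at this
      have : 512 * m' ≤ 2 ^ (Nat.log 2 m' + 1) * 512 := by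
        have := a4.le
        calc 512 * m' ≤ 512 * 2 ^ (Nat.log 2 m' + 1) := Nat.mul_le_mul_left _ this
          _ = _ := by ring
      omega
    · left
      have : 2 ^ (Nat.log 2 m + 1 + 9) ≤ 2 ^ (Nat.log 2 m') :=
        Nat.pow_le_pow_right (by norm_num) (by omega)
      rw [pow_add] at this
      have e : (2 : ℕ) ^ 9 = 512 := by norm_num
      rw [e] at this
      have : 512 * m ≤ 2 ^ (Nat.log 2 m + 1) * 512 := by
        have := a2.le
        calc 512 * m ≤ 512 * 2 ^ (Nat.log 2 m + 1) := Nat.mul_le_mul_left _ this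
          _ = _ := by ring
      omega
  -- pointwise
  have hpt : ∀ m m' : ℕ, 1 ≤ m → 1 ≤ m' → F m m' + G m m' ≤
      (if nr (Nat.log 2 m) (Nat.log 2 m') then F m m' else 0) +
        17 * (Real.exp 10 / X ^ 2 * (1 / ((m : ℝ) + m') ^ 2)) * I0 := by
    intro m m' hm hm'
    have hG := hGb m m' hm hm'
    by_cases hn : nr (Nat.log 2 m) (Nat.log 2 m')
    · rw [if_pos hn]
      have : 0 ≤ 16 * (Real.exp 10 / X ^ 2 * (1 / ((m : ℝ) + m') ^ 2)) * I0 := by positivity
      linarith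
    · rw [if_neg hn]
      have hF := hFb m m' hm hm' (hfar m m' hm hm' hn)
      linarith
  have hS : ∑ m ∈ Finset.Icc 1 M, ∑ m' ∈ Finset.Icc 1 M, (F m m' + G m m') ≤
      ∑ m ∈ Finset.Icc 1 M, ∑ m' ∈ Finset.Icc 1 M,
        (if nr (Nat.log 2 m) (Nat.log 2 m') then F m m' else 0) +
      17 * (Real.exp 10 / X ^ 2) * I0 * (1 + Real.log M) := by
    have e1 : ∑ m ∈ Finset.Icc 1 M, ∑ m' ∈ Finset.Icc 1 M, (F m m' + G m m') ≤
      ∑ m ∈ Finset.Icc 1 M, ∑ m' ∈ Finset.Icc 1 M,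
        ((if nr (Nat.log 2 m) (Nat.log 2 m') then F m m' else 0) +
          17 * (Real.exp 10 / X ^ 2 * (1 / ((m : ℝ) + m') ^ 2)) * I0) :=
      Finset.sum_le_sum (fun m hm => Finset.sum_le_sum (fun m' hm' =>
        hpt m m' (Finset.mem_Icc.mp hm).1 (Finset.mem_Icc.mp hm').1))
    refine e1.trans ?_
    simp only [Finset.sum_add_distrib]
    have e2 : ∑ m ∈ Finset.Icc 1 M, ∑ m' ∈ Finset.Icc 1 M,
        17 * (Real.exp 10 / X ^ 2 * (1 / ((m : ℝ) + m') ^ 2)) * I0 =
        17 * (Real.exp 10 / X ^ 2) * I0 *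
          ∑ m ∈ Finset.Icc 1 M, ∑ m' ∈ Finset.Icc 1 M, (1 : ℝ) / ((m : ℝ) + m') ^ 2 := by
      rw [Finset.mul_sum]
      refine Finset.sum_congr rfl (fun m _ => ?_)
      rw [Finset.mul_sum]
      refine Finset.sum_congr rfl (fun m' _ => ?_)
      ring
    rw [e2]
    have := mul_le_mul_of_nonneg_left (PRS_sum_inv M)
      (show 0 ≤ 17 * (Real.exp 10 / X ^ 2) * I0 by positivity)
    linarith
  -- near sum
  have hnear : (L : ℝ) * X * ∑ m ∈ Finset.Icc 1 M, ∑ m' ∈ Finset.Icc 1 M,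
        (if nr (Nat.log 2 m) (Nat.log 2 m') then F m m' else 0) ≤
      19 * ((Nat.log 2 M : ℝ) + 1) * (C₁ * D * QW W L) := by
    rw [PRS_blocks, Finset.mul_sum]
    have hrow : ∀ i ∈ Finset.range (Nat.log 2 M + 1),
        (L : ℝ) * X * ∑ j ∈ Finset.range (Nat.log 2 M + 1),
          ∑ m ∈ (Finset.Icc 1 M).filter (fun m => 2 ^ i ≤ m ∧ m < 2 ^ (i + 1)),
          ∑ m' ∈ (Finset.Icc 1 M).filter (fun m => 2 ^ j ≤ m ∧ m < 2 ^ (j + 1)),
            (if nr (Nat.log 2 m) (Nat.log 2 m') then F m m' else 0) ≤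
        19 * (C₁ * D * QW W L) := by
      intro i _
      rw [Finset.mul_sum]
      have hterm : ∀ j ∈ Finset.range (Nat.log 2 M + 1),
          (L : ℝ) * X * ∑ m ∈ (Finset.Icc 1 M).filter (fun m => 2 ^ i ≤ m ∧ m < 2 ^ (i + 1)),
          ∑ m' ∈ (Finset.Icc 1 M).filter (fun m => 2 ^ j ≤ m ∧ m < 2 ^ (j + 1)),
            (if nr (Nat.log 2 m) (Nat.log 2 m') then F m m' else 0) ≤
          if nr i j then C₁ * D * QW W L else 0 := by
        intro j _
        have hcongr : ∑ m ∈ (Finset.Icc 1 M).filter (fun m => 2 ^ i ≤ m ∧ m < 2 ^ (i + 1)),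
            ∑ m' ∈ (Finset.Icc 1 M).filter (fun m => 2 ^ j ≤ m ∧ m < 2 ^ (j + 1)),
            (if nr (Nat.log 2 m) (Nat.log 2 m') then F m m' else 0) =
            ∑ m ∈ (Finset.Icc 1 M).filter (fun m => 2 ^ i ≤ m ∧ m < 2 ^ (i + 1)),
            ∑ m' ∈ (Finset.Icc 1 M).filter (fun m => 2 ^ j ≤ m ∧ m < 2 ^ (j + 1)),
            (if nr i j then F m m' else 0) := by
          refine Finset.sum_congr rfl (fun m hm => Finset.sum_congr rfl (fun m' hm' => ?_))
          have q1 := (Finset.mem_filter.mp hm).2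
          have q2 := (Finset.mem_filter.mp hm').2
          rw [Nat.log_eq_of_pow_le_of_lt_pow q1.1 q1.2, Nat.log_eq_of_pow_le_of_lt_pow q2.1 q2.2]
        rw [hcongr]
        by_cases hn : nr i j
        · simp only [if_pos hn]
          exact hB W X D M L i j hX hL hML (by linarith) hd hn.1 hn.2
        · simp only [if_neg hn]
          simp
      refine (Finset.sum_le_sum hterm).trans ?_
      rw [← Finset.sum_filter, Finset.sum_const, nsmul_eq_mul]
      have hcard : ((Finset.range (Nat.log 2 M + 1)).filter (fun j => nr i j)).card ≤ 19 := by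
        have hsub : (Finset.range (Nat.log 2 M + 1)).filter (fun j => nr i j) ⊆
            Finset.Icc (i - 9) (i + 9) := by
          intro j hj
          have := (Finset.mem_filter.mp hj).2
          simp only [nr] at this
          rw [Finset.mem_Icc]; omega
        refine (Finset.card_le_card hsub).trans ?_
        rw [Nat.card_Icc]; omega
      have : (0 : ℝ) ≤ C₁ * D * QW W L := by positivity
      exact mul_le_mul_of_nonneg_right (by exact_mod_cast hcard) this
    refine (Finset.sum_le_sum hrow).trans (le_of_eq ?_)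
    rw [Finset.sum_const, Finset.card_range, nsmul_eq_mul]
    push_cast; ring
  have hlog : (Nat.log 2 M : ℝ) + 1 ≤ 2 * (1 + Real.log M) := by
    have hMR : (1 : ℝ) ≤ M := by exact_mod_cast hM
    have hl := Real.log_nonneg hMR
    have h3 : (Nat.log 2 M : ℝ) * Real.log 2 ≤ Real.log M := by
      rw [← Real.log_pow]
      refine Real.log_le_log (by positivity) ?_
      exact_mod_cast Nat.pow_log_le_self 2 (by omega)
    have h4 : (0.5 : ℝ) ≤ Real.log 2 := by linarith [Real.log_two_gt_d9]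
    have h5 : (0 : ℝ) ≤ (Nat.log 2 M : ℝ) := Nat.cast_nonneg _
    nlinarith
  -- conclusion
  simp only [hFG]
  set S1 : ℝ := ∑ m ∈ Finset.Icc 1 M, ∑ m' ∈ Finset.Icc 1 M,
        (if nr (Nat.log 2 m) (Nat.log 2 m') then F m m' else 0) with hS1
  have hLR : (1 : ℝ) ≤ L := by exact_mod_cast hL
  have hMR : (1 : ℝ) ≤ M := by exact_mod_cast hM
  have hlM := Real.log_nonneg hMR
  have hCQ : (0 : ℝ) ≤ C₁ * D * QW W L := by positivity
  have st1 : (L : ℝ) * X ^ 2 * S1 ≤ 38 * C₁ * (1 + Real.log M) * (X * D * QW W L) := by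
    have a1 : (L : ℝ) * X ^ 2 * S1 = X * ((L : ℝ) * X * S1) := by ring
    rw [a1]
    have a2 := mul_le_mul_of_nonneg_left hnear hX0.le
    refine a2.trans ?_
    have a3 : 19 * ((Nat.log 2 M : ℝ) + 1) * (C₁ * D * QW W L) ≤
        19 * (2 * (1 + Real.log M)) * (C₁ * D * QW W L) := by
      refine mul_le_mul_of_nonneg_right ?_ hCQ
      linarith
    have a4 := mul_le_mul_of_nonneg_left a3 hX0.le
    refine a4.trans (le_of_eq ?_)
    ring
  have st2 : (L : ℝ) * X ^ 2 * (17 * (Real.exp 10 / X ^ 2) * I0 * (1 + Real.log M)) =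
      17 * Real.exp 10 * (1 + Real.log M) * (L * I0) := by
    field_simp
  have st3 := mul_le_mul_of_nonneg_left hS (show 0 ≤ (L : ℝ) * X ^ 2 by positivity)
  refine st3.trans ?_
  rw [mul_add, st2]
  have r1 : 0 ≤ 17 * Real.exp 10 * (1 + Real.log M) * (X * D * QW W L) := by positivity
  have r2 : 0 ≤ 38 * C₁ * (1 + Real.log M) * (L * I0) := by positivity
  nlinarith [st1, r1, r2]

end Pool.Agent.ZD
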